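import Pool.Agent.Y481.DR.Defs
import Pool.Agent.Y686.CB.Gda

/-!
# Project DR (helper481), job DR-TPL4

Divided differences of a polynomial at arbitrary nodes (with repetitions allowed), as functions of
the nodes.
-/

set_option autoImplicit false

namespace Pool.Agent.Y888.DR

open Finset Filter Topology Polynomial

/-! ### The iterated quotients -/

/-- iterated quotients by `X - u i`, ..., `X - u (i + n - 1)` -/
noncomputable def itq (P : Polynomial ℂ) (u : ℕ → ℂ) (i : ℕ) : ℕ → Polynomial ℂ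
  | 0 => P
  | n + 1 => itq P u i n /ₘ (X - C (u (i + n)))

/-- the divided difference of `P` at the nodes `u i`, ..., `u j` (`i ≤ j`) -/
noncomputable def pdd (P : Polynomial ℂ) (u : ℕ → ℂ) (i j : ℕ) : ℂ :=
  (itq P u i (j - i)).eval (u j)

@[simp] theorem itq_zero (P : Polynomial ℂ) (u : ℕ → ℂ) (i : ℕ) : itq P u i 0 = P := rfl

theorem itq_succ (P : Polynomial ℂ) (u : ℕ → ℂ) (i n : ℕ) :
    itq P u i (n + 1) = itq P u i n /ₘ (X - C (u (i + n))) := rfl

theorem itq_succ' (P : Polynomial ℂ) (u : ℕ → ℂ) (i n : ℕ) :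
    itq P u i (n + 1) = itq (P /ₘ (X - C (u i))) u (i + 1) n := by
  induction n with
  | zero => rfl
  | succ n ih =>
    rw [itq_succ, ih, itq_succ, show i + (n + 1) = i + 1 + n by ring]

theorem itq_add (P : Polynomial ℂ) (u : ℕ → ℂ) (i n m : ℕ) :
    itq P u i (n + m) = itq (itq P u i n) u (i + n) m := by
  induction m with
  | zero => rfl
  | succ m ih => rw [← add_assoc, itq_succ, ih, itq_succ, add_assoc]

theorem eval_dm (P : Polynomial ℂ) (a x : ℂ) :
    P.eval x = (x - a) * (P /ₘ (X - C a)).eval x + P.eval a := by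
  conv_lhs => rw [← modByMonic_add_div P (X - C a)]
  rw [modByMonic_X_sub_C_eq_C_eval]
  simp
  ring

theorem itq_zero_left (u : ℕ → ℂ) (i n : ℕ) : itq 0 u i n = 0 := by
  induction n with
  | zero => rfl
  | succ n ih => rw [itq_succ, ih, zero_divByMonic]

theorem natDegree_itq (P : Polynomial ℂ) (u : ℕ → ℂ) (i n : ℕ) :
    (itq P u i n).natDegree = P.natDegree - n := by
  induction n with
  | zero => rfl
  | succ n ih =>
    rw [itq_succ, natDegree_divByMonic _ (monic_X_sub_C _), ih, natDegree_X_sub_C]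
    omega

theorem itq_eq_zero {P : Polynomial ℂ} (u : ℕ → ℂ) (i : ℕ) {n : ℕ} (h : P.natDegree < n) :
    itq P u i n = 0 := by
  obtain ⟨m, rfl⟩ : ∃ m, n = P.natDegree + 1 + m := ⟨n - (P.natDegree + 1), by omega⟩
  rw [itq_add]
  have h1 : itq P u i (P.natDegree + 1) = 0 := by
    rw [itq_succ, divByMonic_eq_zero_iff (monic_X_sub_C _), degree_X_sub_C]
    have h2 := natDegree_itq P u i P.natDegree
    rw [Nat.sub_self] at h2
    rw [eq_C_of_natDegree_eq_zero h2]
    exact lt_of_le_of_lt degree_C_le (by norm_num)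
  rw [h1, itq_zero_left]

theorem pdd_eq_zero {P : Polynomial ℂ} (u : ℕ → ℂ) {i j : ℕ} (h : P.natDegree < j - i) :
    pdd P u i j = 0 := by
  unfold pdd
  rw [itq_eq_zero u i h, eval_zero]

@[simp] theorem pdd_self (P : Polynomial ℂ) (u : ℕ → ℂ) (i : ℕ) : pdd P u i i = P.eval (u i) := by
  unfold pdd
  rw [Nat.sub_self, itq_zero]

/-- recursion: remove the first node -/
theorem pdd_succ (P : Polynomial ℂ) (u : ℕ → ℂ) {i j : ℕ} (h : i < j) :
    pdd P u i j = pdd (P /ₘ (X - C (u i))) u (i + 1) j := by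
  unfold pdd
  obtain ⟨n, hn⟩ : ∃ n, j = i + 1 + n := ⟨j - (i + 1), by omega⟩
  rw [hn, show i + 1 + n - i = n + 1 by omega, show i + 1 + n - (i + 1) = n by omega, itq_succ']

/-! ### (a) distinct nodes -/

theorem sum_nodalWeight {s : Finset ℕ} {u : ℕ → ℂ} (hu : Set.InjOn u s) (hs : 1 < #s) :
    ∑ k ∈ s, Lagrange.nodalWeight s u k = 0 := by
  have h1 := Lagrange.coeff_eq_sum (s := s) (v := u) hu (P := 1) (by
    rw [degree_one]
    exact_mod_cast lt_trans one_pos hs)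
  rw [coeff_one, if_neg (by omega)] at h1
  rw [h1]
  refine sum_congr rfl fun k _ => ?_
  unfold Lagrange.nodalWeight
  rw [eval_one, prod_inv_distrib, one_div]

theorem itq_eval (n : ℕ) : ∀ (P : Polynomial ℂ) (u : ℕ → ℂ) (i : ℕ),
    Set.InjOn u (Icc i (i + n) : Finset ℕ) → (itq P u i n).eval (u (i + n)) =
      ∑ k ∈ Icc i (i + n), Lagrange.nodalWeight (Icc i (i + n)) u k * P.eval (u k) := by
  induction n with
  | zero =>
    intro P u i _
    simp [Lagrange.nodalWeight]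
  | succ n ih =>
    intro P u i hu
    have hI : Icc i (i + (n + 1)) = insert i (Icc (i + 1) (i + 1 + n)) := by
      ext k
      simp only [mem_Icc, mem_insert]
      omega
    have hni : i ∉ Icc (i + 1) (i + 1 + n) := by simp
    have hu' : Set.InjOn u (Icc (i + 1) (i + 1 + n) : Finset ℕ) := by
      refine hu.mono ?_
      rw [hI]
      exact_mod_cast subset_insert _ _
    have h0 := sum_nodalWeight hu (by rw [Nat.card_Icc]; omega)
    have h1 : ∑ k ∈ Icc i (i + (n + 1)), Lagrange.nodalWeight (Icc i (i + (n + 1))) u k *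
        P.eval (u k) = ∑ k ∈ Icc i (i + (n + 1)),
          Lagrange.nodalWeight (Icc i (i + (n + 1))) u k *
            ((u k - u i) * (P /ₘ (X - C (u i))).eval (u k)) := by
      have h2 : ∀ k ∈ Icc i (i + (n + 1)), Lagrange.nodalWeight (Icc i (i + (n + 1))) u k *
          P.eval (u k) = Lagrange.nodalWeight (Icc i (i + (n + 1))) u k *
            ((u k - u i) * (P /ₘ (X - C (u i))).eval (u k)) +
            Lagrange.nodalWeight (Icc i (i + (n + 1))) u k * P.eval (u i) := by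
        intro k _
        rw [eval_dm P (u i) (u k)]
        ring
      rw [sum_congr rfl h2, sum_add_distrib, ← sum_mul, h0, zero_mul, add_zero]
    rw [h1, itq_succ', show i + (n + 1) = i + 1 + n by ring, ih _ u (i + 1) hu',
      show i + 1 + n = i + (n + 1) by ring, hI, sum_insert hni, sub_self, zero_mul, mul_zero,
      zero_add, show i + (n + 1) = i + 1 + n by ring]
    refine sum_congr rfl fun k hk => ?_
    have hki : i ≠ k := by
      rintro rfl
      exact hni hk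
    have h3 : Lagrange.nodalWeight (insert i (Icc (i + 1) (i + 1 + n))) u k =
        (u k - u i)⁻¹ * Lagrange.nodalWeight (Icc (i + 1) (i + 1 + n)) u k := by
      unfold Lagrange.nodalWeight
      rw [erase_insert_of_ne hki, prod_insert (fun h => hni (mem_of_mem_erase h))]
    have h4 : u k - u i ≠ 0 := by
      intro h
      apply hki
      refine hu ?_ ?_ (sub_eq_zero.1 h).symm
      · rw [hI]
        exact_mod_cast mem_insert_self _ _
      · rw [hI]
        exact_mod_cast mem_insert_of_mem hk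
    rw [h3]
    field_simp

/-- (a) -/
theorem pdd_eq_sum {P : Polynomial ℂ} {u : ℕ → ℂ} {i j : ℕ} (hij : i ≤ j)
    (hu : Set.InjOn u (Icc i j : Finset ℕ)) :
    pdd P u i j = ∑ k ∈ Icc i j, Lagrange.nodalWeight (Icc i j) u k * P.eval (u k) := by
  obtain ⟨n, rfl⟩ := Nat.exists_eq_add_of_le hij
  unfold pdd
  rw [Nat.add_sub_cancel_left]
  exact itq_eval n P u i hu

/-- (a), with `Set.Icc` -/
theorem pdd_eq_sum' {P : Polynomial ℂ} {u : ℕ → ℂ} {i j : ℕ} (hij : i ≤ j)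
    (hu : Set.InjOn u (Set.Icc i j)) :
    pdd P u i j = ∑ k ∈ Icc i j, Lagrange.nodalWeight (Icc i j) u k * P.eval (u k) :=
  pdd_eq_sum hij (by rwa [coe_Icc])

/-! ### (b) continuity -/

theorem coeff_dm {P : Polynomial ℂ} {d : ℕ} (h : P.natDegree ≤ d) (a : ℂ) (n : ℕ) :
    (P /ₘ (X - C a)).coeff n = ∑ i ∈ Icc (n + 1) d, a ^ (i - (n + 1)) * P.coeff i := by
  rw [coeff_divByMonic_X_sub_C]
  refine sum_subset (fun i hi => ?_) fun i _ hi2 => ?_
  · rw [mem_Icc] at hi ⊢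
    omega
  · rw [mem_Icc] at *
    rw [coeff_eq_zero_of_natDegree_lt (by omega), mul_zero]

theorem eval_sum_le {P : Polynomial ℂ} {d : ℕ} (h : P.natDegree ≤ d) (x : ℂ) :
    P.eval x = ∑ i ∈ range (d + 1), P.coeff i * x ^ i :=
  eval_eq_sum_range' (Nat.lt_succ_of_le h) x

theorem natDegree_itq_le {P : Polynomial ℂ} {d : ℕ} (h : P.natDegree ≤ d) (u : ℕ → ℂ) (i n : ℕ) :
    (itq P u i n).natDegree ≤ d := by
  rw [natDegree_itq]
  omega

theorem itq_tendsto {α : Type*} {l : Filter α} {d : ℕ} {Pt : α → Polynomial ℂ} {P : Polynomial ℂ}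
    (hd : ∀ᶠ t in l, (Pt t).natDegree ≤ d) (hd' : P.natDegree ≤ d)
    (hP : ∀ n, Tendsto (fun t => (Pt t).coeff n) l (𝓝 (P.coeff n)))
    {ut : α → ℕ → ℂ} {u : ℕ → ℂ} (i n : ℕ)
    (hu : ∀ k, i ≤ k → k < i + n → Tendsto (fun t => ut t k) l (𝓝 (u k))) :
    ∀ m, Tendsto (fun t => (itq (Pt t) (ut t) i n).coeff m) l (𝓝 ((itq P u i n).coeff m)) := by
  induction n with
  | zero => exact hP
  | succ n ih =>
    have ih' := ih fun k h1 h2 => hu k h1 (by omega)
    intro m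
    have h1 : ∀ᶠ t in l, ∑ j ∈ Icc (m + 1) d, ut t (i + n) ^ (j - (m + 1)) *
        (itq (Pt t) (ut t) i n).coeff j = (itq (Pt t) (ut t) i (n + 1)).coeff m := by
      filter_upwards [hd] with t ht
      rw [itq_succ, coeff_dm (natDegree_itq_le ht _ _ _)]
    rw [itq_succ P, coeff_dm (natDegree_itq_le hd' _ _ _)]
    refine Tendsto.congr' h1 (tendsto_finsetSum _ fun j _ => ?_)
    exact ((hu (i + n) (by omega) (by omega)).pow _).mul (ih' j)

/-- (b) joint continuity -/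
theorem pdd_tendsto {α : Type*} {l : Filter α} {d : ℕ} {Pt : α → Polynomial ℂ} {P : Polynomial ℂ}
    (hd : ∀ᶠ t in l, (Pt t).natDegree ≤ d)
    (hP : ∀ n, Tendsto (fun t => (Pt t).coeff n) l (𝓝 (P.coeff n)))
    {ut : α → ℕ → ℂ} {u : ℕ → ℂ} {i j : ℕ} (hij : i ≤ j)
    (hu : ∀ k, i ≤ k → k ≤ j → Tendsto (fun t => ut t k) l (𝓝 (u k))) :
    Tendsto (fun t => pdd (Pt t) (ut t) i j) l (𝓝 (pdd P u i j)) := by
  rcases eq_or_neBot l with rfl | hl
  · exact tendsto_bot
  have hd' : P.natDegree ≤ d := by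
    rw [natDegree_le_iff_coeff_eq_zero]
    intro n hn
    refine tendsto_nhds_unique (hP n) ?_
    refine Tendsto.congr' ?_ tendsto_const_nhds
    filter_upwards [hd] with t ht
    exact (coeff_eq_zero_of_natDegree_lt (by omega)).symm
  obtain ⟨n, rfl⟩ := Nat.exists_eq_add_of_le hij
  unfold pdd
  rw [Nat.add_sub_cancel_left, eval_sum_le (natDegree_itq_le hd' _ _ _)]
  have h1 : ∀ᶠ t in l, ∑ m ∈ range (d + 1), (itq (Pt t) (ut t) i n).coeff m * ut t (i + n) ^ m =
      (itq (Pt t) (ut t) i n).eval (ut t (i + n)) := by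
    filter_upwards [hd] with t ht
    rw [eval_sum_le (natDegree_itq_le ht _ _ _)]
  refine Tendsto.congr' h1 (tendsto_finsetSum _ fun m _ => ?_)
  exact (itq_tendsto hd hd' hP i n (fun k h2 h3 => hu k h2 (by omega)) m).mul
    ((hu (i + n) (by omega) le_rfl).pow m)

/-! ### (c) differentiability -/

theorem itq_diff {P : ℂ → Polynomial ℂ} {d : ℕ} {x : ℂ}
    (hd : ∀ᶠ ε in 𝓝 x, (P ε).natDegree ≤ d)
    (hP : ∀ n, DifferentiableAt ℂ (fun ε => (P ε).coeff n) x)
    {u : ℂ → ℕ → ℂ} (i n : ℕ)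
    (hu : ∀ k, i ≤ k → k < i + n → DifferentiableAt ℂ (fun ε => u ε k) x) :
    ∀ m, DifferentiableAt ℂ (fun ε => (itq (P ε) (u ε) i n).coeff m) x := by
  induction n with
  | zero => exact hP
  | succ n ih =>
    have ih' := ih fun k h1 h2 => hu k h1 (by omega)
    intro m
    have h1 : (fun ε => (itq (P ε) (u ε) i (n + 1)).coeff m) =ᶠ[𝓝 x]
        fun ε => ∑ j ∈ Icc (m + 1) d, u ε (i + n) ^ (j - (m + 1)) *
        (itq (P ε) (u ε) i n).coeff j := by
      filter_upwards [hd] with ε hε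
      rw [itq_succ, coeff_dm (natDegree_itq_le hε _ _ _)]
    refine DifferentiableAt.congr_of_eventuallyEq ?_ h1
    refine DifferentiableAt.fun_sum fun j _ => ?_
    exact ((hu (i + n) (by omega) (by omega)).fun_pow _).fun_mul (ih' j)

/-- (c), general form: also the polynomial depends on the parameter -/
theorem pdd_diff' {P : ℂ → Polynomial ℂ} {d : ℕ} {x : ℂ}
    (hd : ∀ᶠ ε in 𝓝 x, (P ε).natDegree ≤ d)
    (hP : ∀ n, DifferentiableAt ℂ (fun ε => (P ε).coeff n) x)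
    {u : ℂ → ℕ → ℂ} {i j : ℕ} (hij : i ≤ j)
    (hu : ∀ k, i ≤ k → k ≤ j → DifferentiableAt ℂ (fun ε => u ε k) x) :
    DifferentiableAt ℂ (fun ε => pdd (P ε) (u ε) i j) x := by
  obtain ⟨n, rfl⟩ := Nat.exists_eq_add_of_le hij
  have h1 : (fun ε => pdd (P ε) (u ε) i (i + n)) =ᶠ[𝓝 x]
      fun ε => ∑ m ∈ range (d + 1), (itq (P ε) (u ε) i n).coeff m * u ε (i + n) ^ m := by
    filter_upwards [hd] with ε hε
    unfold pdd
    rw [Nat.add_sub_cancel_left, eval_sum_le (natDegree_itq_le hε _ _ _)]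
  refine DifferentiableAt.congr_of_eventuallyEq ?_ h1
  refine DifferentiableAt.fun_sum fun m _ => ?_
  exact (itq_diff hd hP i n (fun k h2 h3 => hu k h2 (by omega)) m).fun_mul
    ((hu (i + n) (by omega) le_rfl).fun_pow m)

/-- (c) -/
theorem pdd_diff (P : Polynomial ℂ) {x : ℂ} {u : ℂ → ℕ → ℂ} {i j : ℕ} (hij : i ≤ j)
    (hu : ∀ k, i ≤ k → k ≤ j → DifferentiableAt ℂ (fun ε => u ε k) x) :
    DifferentiableAt ℂ (fun ε => pdd P (u ε) i j) x :=
  pdd_diff' (d := P.natDegree) (Eventually.of_forall fun _ => le_rfl)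
    (fun _ => differentiableAt_const _) hij hu

/-! ### (d) Leibniz / Newton -/

theorem itq_mul_prod (P : Polynomial ℂ) (u : ℕ → ℂ) (i j : ℕ) (hij : i ≤ j) :
    itq (P * ∏ m ∈ range j, (X - C (u m))) u 0 i = P * ∏ m ∈ Ico i j, (X - C (u m)) := by
  induction i with
  | zero => rw [itq_zero, range_eq_Ico]
  | succ i ih =>
    rw [itq_succ, ih (by omega), Finset.prod_eq_prod_Ico_succ_bot (by omega : i < j), zero_add,
      mul_left_comm, mul_divByMonic_cancel_left _ (monic_X_sub_C _)]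

/-- (d) -/
theorem pdd_mul_prod (P : Polynomial ℂ) (u : ℕ → ℂ) {i j : ℕ} (hij : i ≤ j) :
    pdd (P * ∏ m ∈ range i, (X - C (u m))) u 0 j = pdd P u i j := by
  unfold pdd
  obtain ⟨n, rfl⟩ := Nat.exists_eq_add_of_le hij
  rw [Nat.sub_zero, itq_add, itq_mul_prod P u i i le_rfl, Ico_self, prod_empty, mul_one, zero_add,
    Nat.add_sub_cancel_left]

/-- (d) -/
theorem pdd_mul_prod_lt (P : Polynomial ℂ) (u : ℕ → ℂ) {i j : ℕ} (hij : j < i) :
    pdd (P * ∏ m ∈ range i, (X - C (u m))) u 0 j = 0 := by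
  unfold pdd
  rw [Nat.sub_zero, itq_mul_prod P u j i hij.le, eval_mul, eval_prod,
    Finset.prod_eq_zero (mem_Ico.2 ⟨le_rfl, hij⟩) (by simp), mul_zero]

/-! ### (e) Newton interpolation -/

theorem newton_rem (P : Polynomial ℂ) (u : ℕ → ℂ) (n : ℕ) :
    P = ∑ k ∈ range n, C (pdd P u 0 k) * ∏ m ∈ range k, (X - C (u m)) +
      itq P u 0 n * ∏ m ∈ range n, (X - C (u m)) := by
  induction n with
  | zero => simp
  | succ n ih =>
    rw [sum_range_succ, prod_range_succ, add_assoc]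
    have h1 : itq P u 0 n = C (pdd P u 0 n) + (X - C (u n)) * itq P u 0 (n + 1) := by
      conv_lhs => rw [← modByMonic_add_div (itq P u 0 n) (X - C (u n))]
      rw [modByMonic_X_sub_C_eq_C_eval, itq_succ, zero_add]
      rfl
    conv_lhs => rw [ih, h1]
    ring

/-- (e) -/
theorem newton {P : Polynomial ℂ} (u : ℕ → ℂ) {n : ℕ} (h : P.natDegree < n) :
    P = ∑ k ∈ range n, C (pdd P u 0 k) * ∏ m ∈ range k, (X - C (u m)) := by
  conv_lhs => rw [newton_rem P u n, itq_eq_zero u 0 h, zero_mul, add_zero]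

theorem add_dm (P Q : Polynomial ℂ) (a : ℂ) :
    (P + Q) /ₘ (X - C a) = P /ₘ (X - C a) + Q /ₘ (X - C a) := by
  refine mul_left_cancel₀ (X_sub_C_ne_zero a) ?_
  rw [mul_add, X_sub_C_mul_divByMonic_eq_sub_modByMonic, X_sub_C_mul_divByMonic_eq_sub_modByMonic,
    X_sub_C_mul_divByMonic_eq_sub_modByMonic, modByMonic_X_sub_C_eq_C_eval,
    modByMonic_X_sub_C_eq_C_eval, modByMonic_X_sub_C_eq_C_eval, eval_add, map_add]
  ring

theorem smul_dm (c : ℂ) (P : Polynomial ℂ) (a : ℂ) :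
    (c • P) /ₘ (X - C a) = c • (P /ₘ (X - C a)) := by
  refine mul_left_cancel₀ (X_sub_C_ne_zero a) ?_
  rw [mul_smul_comm, X_sub_C_mul_divByMonic_eq_sub_modByMonic,
    X_sub_C_mul_divByMonic_eq_sub_modByMonic, modByMonic_X_sub_C_eq_C_eval,
    modByMonic_X_sub_C_eq_C_eval, eval_smul, smul_sub, smul_C]

/-- linearity -/
theorem itq_add_poly (P Q : Polynomial ℂ) (u : ℕ → ℂ) (i n : ℕ) :
    itq (P + Q) u i n = itq P u i n + itq Q u i n := by
  induction n with
  | zero => rfl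
  | succ n ih => rw [itq_succ, ih, add_dm, itq_succ, itq_succ]

theorem itq_smul_poly (c : ℂ) (P : Polynomial ℂ) (u : ℕ → ℂ) (i n : ℕ) :
    itq (c • P) u i n = c • itq P u i n := by
  induction n with
  | zero => rfl
  | succ n ih => rw [itq_succ, ih, smul_dm, itq_succ]

theorem pdd_add (P Q : Polynomial ℂ) (u : ℕ → ℂ) (i j : ℕ) :
    pdd (P + Q) u i j = pdd P u i j + pdd Q u i j := by
  unfold pdd
  rw [itq_add_poly, eval_add]

theorem pdd_smul (c : ℂ) (P : Polynomial ℂ) (u : ℕ → ℂ) (i j : ℕ) :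
    pdd (c • P) u i j = c * pdd P u i j := by
  unfold pdd
  rw [itq_smul_poly, eval_smul, smul_eq_mul]

theorem pdd_C_mul (c : ℂ) (P : Polynomial ℂ) (u : ℕ → ℂ) (i j : ℕ) :
    pdd (C c * P) u i j = c * pdd P u i j := by
  rw [← smul_eq_C_mul, pdd_smul]

theorem pdd_zero (u : ℕ → ℂ) (i j : ℕ) : pdd 0 u i j = 0 := by
  unfold pdd
  rw [itq_zero_left, eval_zero]

theorem pdd_sum {ι : Type*} (s : Finset ι) (P : ι → Polynomial ℂ) (u : ℕ → ℂ) (i j : ℕ) :
    pdd (∑ a ∈ s, P a) u i j = ∑ a ∈ s, pdd (P a) u i j := by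
  classical
  induction s using Finset.induction_on with
  | empty => rw [sum_empty, sum_empty, pdd_zero]
  | insert a s ha ih => rw [sum_insert ha, sum_insert ha, pdd_add, ih]

/-! ### (f) the nodes of the project -/

open Pool.Agent.Y472 (uu)
open Pool.Agent.W711.HT (vN)
open Pool.Agent.Y686.CB (zn zn_inj uu_fun small_ev)

/-- (f) the nodes are distinct -/
theorem uu_inj {N : ℕ} (hN : 0 < N) {ε : ℂ} (h0 : ε ≠ 0) (h1 : ‖ε‖ < Real.pi / (2 * N)) :
    Set.InjOn (uu (vN N) (-Complex.exp ε)) (Set.Iio N) := by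
  intro j hj k hk h
  rw [uu_fun hN] at h
  exact zn_inj hN h0 h1 hj hk (mul_left_cancel₀ two_ne_zero h)

theorem uu_inj_ev {N : ℕ} (hN : 0 < N) :
    ∀ᶠ ε in 𝓝[≠] (0 : ℂ), Set.InjOn (uu (vN N) (-Complex.exp ε)) (Set.Iio N) := by
  filter_upwards [small_ev hN, self_mem_nhdsWithin] with ε h1 h0
  exact uu_inj hN h0 h1

theorem uu_diff {N : ℕ} (hN : 0 < N) (k : ℕ) (x : ℂ) :
    DifferentiableAt ℂ (fun ε => uu (vN N) (-Complex.exp ε) k) x := by
  have h1 : (fun ε => uu (vN N) (-Complex.exp ε) k) = fun ε => 2 * Complex.cos (zn N ε k) := by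
    funext ε
    rw [uu_fun hN]
  rw [h1]
  unfold zn
  fun_prop

/-- the divided differences at the nodes `uu`, `l = -exp ε`, extend to `ε = 0` -/
theorem gdp {N : ℕ} (hN : 0 < N) (P : Polynomial ℂ) :
    Pool.Agent.Y481.DR.GDP N P (fun i j => pdd P (uu (vN N) (-1)) i j) := by
  intro i j hij hj
  refine ⟨fun ε => pdd P (uu (vN N) (-Complex.exp ε)) i j,
    pdd_diff P hij fun k _ _ => uu_diff hN k 0, ?_, ?_⟩
  · show pdd P (uu (vN N) (-Complex.exp 0)) i j = _
    rw [Complex.exp_zero]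
  · filter_upwards [uu_inj_ev hN] with ε hε
    refine pdd_eq_sum' hij (hε.mono fun k hk => ?_)
    exact lt_of_le_of_lt hk.2 hj

theorem vN_ne (N : ℕ) : vN N ≠ 0 := Complex.exp_ne_zero _

theorem vN_pow {N : ℕ} (hN : 0 < N) : vN N ^ N = -1 := by
  unfold Pool.Agent.W711.HT.vN
  rw [← Complex.exp_nat_mul]
  have hN0 : (N : ℂ) ≠ 0 := by exact_mod_cast hN.ne'
  rw [mul_div_cancel₀ _ hN0, Complex.exp_pi_mul_I]

/-- the nodes for generic `v` have the limits `uu (vN N) (-1)` -/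
theorem uu_tendsto {N : ℕ} (hN : 0 < N) (k : ℕ) :
    Tendsto (fun v => uu v (v ^ N) k) (𝓝 (vN N)) (𝓝 (uu (vN N) (-1) k)) := by
  rw [← vN_pow hN]
  unfold Pool.Agent.Y472.uu
  have h1 : Tendsto (fun v : ℂ => (v ^ N) ^ 2 * v ^ (-1 - 2 * (k : ℤ))) (𝓝 (vN N))
      (𝓝 ((vN N ^ N) ^ 2 * vN N ^ (-1 - 2 * (k : ℤ)))) := by
    have h2 : ContinuousAt (fun v : ℂ => (v ^ N) ^ 2 * v ^ (-1 - 2 * (k : ℤ))) (vN N) :=
      ((continuousAt_id.pow N).pow 2).mul (continuousAt_zpow₀ _ _ (Or.inl (vN_ne N)))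
    exact h2
  refine h1.add (h1.inv₀ ?_)
  exact mul_ne_zero (pow_ne_zero _ (pow_ne_zero _ (vN_ne N))) (zpow_ne_zero _ (vN_ne N))

/-- the divided differences of polynomials at the generic nodes converge to the divided differences
at the nodes `uu (vN N) (-1)` -/
theorem pdd_lim {N : ℕ} (hN : 0 < N) {l : Filter ℂ} (hl : l ≤ 𝓝 (vN N)) {d : ℕ}
    {Pt : ℂ → Polynomial ℂ} {P : Polynomial ℂ} (hd : ∀ᶠ v in l, (Pt v).natDegree ≤ d)
    (hP : ∀ n, Tendsto (fun v => (Pt v).coeff n) l (𝓝 (P.coeff n))) {i j : ℕ} (hij : i ≤ j) :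
    Tendsto (fun v => pdd (Pt v) (uu v (v ^ N)) i j) l (𝓝 (pdd P (uu (vN N) (-1)) i j)) :=
  pdd_tendsto hd hP hij fun k _ _ => (uu_tendsto hN k).mono_left hl

/-- `gdP` is the divided difference -/
theorem gdP_eq {w l : ℂ} {P : Polynomial ℂ} {i j : ℕ} (hij : i ≤ j)
    (hu : Set.InjOn (uu w l) (Set.Icc i j)) : Pool.Agent.Y481.DR.gdP w l P i j = pdd P (uu w l) i j :=
  (pdd_eq_sum' hij hu).symm

end Pool.Agent.Y888.DR
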